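import Pool.Agent.V5helper87.ZM.Stm

/-!
Project ZM (helper87, MP_48737f_gt), job NEU: a contraction may be replaced by an approximate one with
finite support.
-/

set_option autoImplicit false

open scoped Matrix Pointwise

namespace Pool.Agent.V5helper76.ZM

open Pool.Agent.H919R4.ZS Pool.Agent.TH38.CX Pool.Agent.TH38.ZT
open Pool.Agent.V5helper87.ZM

section

variable {G : Type} [Group G] {C : Subgroup G} {A B : Type} [NormedRing A] [NormedRing B]
  (fr : Frame C A B)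

theorem supp_mono {x : A} {T T' : Set G} (hT : T ⊆ T') (h : Supp fr x T) : Supp fr x T' :=
  fun g hg => h g fun s hs => hg s (hT hs)

theorem supp_sum {ι : Type} (s : Finset ι) {f : ι → A} {T : Set G} (h : ∀ i ∈ s, Supp fr (f i) T) :
    Supp fr (∑ i ∈ s, f i) T := by
  intro g hg
  rw [Finset.sum_mul, map_sum]
  exact Finset.sum_eq_zero fun i hi => h i hi g hg

theorem supp_sub {x y : A} {T : Set G} (hx : Supp fr x T) (hy : Supp fr y T) :
    Supp fr (x - y) T := by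
  intro g hg
  rw [sub_mul, map_sub, hx g hg, hy g hg, sub_zero]

/-- approximation of a matrix by one which moves supports by a finite set -/
theorem approx {p q : ℕ} (M : Matrix (Fin p) (Fin q) A) {ε : ℝ} (hε : 0 < ε) :
    ∃ (N : Matrix (Fin p) (Fin q) A) (S : Set G), S.Finite ∧ (∀ i j, ‖M i j - N i j‖ ≤ ε) ∧
      ∀ (x : Fin p → A) (T : Set G), SuppV fr x T → SuppV fr (x ᵥ* N) (T * S) := by
  choose N hN S hS hmv using fun i j => fr.dense (M i j) ε hε
  refine ⟨Matrix.of N, ⋃ i, ⋃ j, S i j, ?_, fun i j => (hN i j).le, ?_⟩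
  · exact Set.finite_iUnion fun i => Set.finite_iUnion fun j => hS i j
  · intro x T hx j
    change Supp fr (∑ i, x i * N i j) _
    refine supp_sum fr _ fun i _ => ?_
    intro g hg
    refine hmv i j (x i) T (hx i) g fun s hs => hg s ?_
    refine Set.mul_subset_mul_left ?_ hs
    exact fun u hu => Set.mem_iUnion.2 ⟨i, Set.mem_iUnion.2 ⟨j, hu⟩⟩

theorem norm_vecMul_le {p q : ℕ} (x : Fin p → A) (M : Matrix (Fin p) (Fin q) A) {r : ℝ}
    (hx : ∀ a, ‖x a‖ ≤ r) (b : Fin q) : ‖(x ᵥ* M) b‖ ≤ r * ∑ a, ‖M a b‖ := by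
  change ‖∑ a, x a * M a b‖ ≤ _
  refine (norm_sum_le _ _).trans ?_
  rw [Finset.mul_sum]
  refine Finset.sum_le_sum fun a _ => (norm_mul_le _ _).trans ?_
  exact mul_le_mul_of_nonneg_right (hx a) (norm_nonneg _)

end

theorem t_NEU (hsup : S_SUP) : S_NEU := by
  intro G _ C A B _ _ fr k l m D' D s' s hDD hs
  obtain ⟨h1, h2, -⟩ := hsup G C A B fr
  obtain ⟨S1, hS1, hD'⟩ := h2 m l D'
  obtain ⟨S2, hS2, hD⟩ := h2 k m D
  set Da : Matrix (Fin k) (Fin m) A := D.map fr.α with hDa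
  set Da' : Matrix (Fin m) (Fin l) A := D'.map fr.α with hDa'
  -- the size of the entries
  set M : ℝ := 1 + (∑ a, ∑ b, ‖Da' a b‖) + ∑ a, ∑ b, ‖Da a b‖ with hM
  have hn1 : 0 ≤ ∑ a, ∑ b, ‖Da' a b‖ :=
    Finset.sum_nonneg fun a _ => Finset.sum_nonneg fun b _ => norm_nonneg _
  have hn2 : 0 ≤ ∑ a, ∑ b, ‖Da a b‖ :=
    Finset.sum_nonneg fun a _ => Finset.sum_nonneg fun b _ => norm_nonneg _
  have hM1 : 0 < M := by rw [hM]; linarith
  have hle' : ∀ a b, ‖Da' a b‖ ≤ M := by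
    intro a b
    have e1 : ‖Da' a b‖ ≤ ∑ b, ‖Da' a b‖ :=
      Finset.single_le_sum (f := fun b => ‖Da' a b‖) (fun b _ => norm_nonneg _) (Finset.mem_univ b)
    have e2 : ∑ b, ‖Da' a b‖ ≤ ∑ a, ∑ b, ‖Da' a b‖ :=
      Finset.single_le_sum (f := fun a => ∑ b, ‖Da' a b‖)
        (fun a _ => Finset.sum_nonneg fun b _ => norm_nonneg _) (Finset.mem_univ a)
    rw [hM]; linarith
  have hle : ∀ a b, ‖Da a b‖ ≤ M := by
    intro a b
    have e1 : ‖Da a b‖ ≤ ∑ b, ‖Da a b‖ :=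
      Finset.single_le_sum (f := fun b => ‖Da a b‖) (fun b _ => norm_nonneg _) (Finset.mem_univ b)
    have e2 : ∑ b, ‖Da a b‖ ≤ ∑ a, ∑ b, ‖Da a b‖ :=
      Finset.single_le_sum (f := fun a => ∑ b, ‖Da a b‖)
        (fun a _ => Finset.sum_nonneg fun b _ => norm_nonneg _) (Finset.mem_univ a)
    rw [hM]; linarith
  set Q : ℝ := m * ((l + k) * M) with hQ
  have hQ0 : 0 ≤ Q := by rw [hQ]; positivity
  set ε : ℝ := 1 / (2 * (Q + 1)) with hε
  have hε0 : 0 < ε := by rw [hε]; positivity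
  have hQε : Q * ε ≤ 1 / 2 := by
    rw [hε, mul_one_div, div_le_div_iff₀ (by positivity) (by norm_num)]
    linarith
  obtain ⟨σ, Sσ, hSσ, hσ, hσT⟩ := approx fr s hε0
  obtain ⟨σ', Sσ', hSσ', hσ', hσT'⟩ := approx fr s' hε0
  set η : Matrix (Fin m) (Fin m) A := 1 - Da' * σ' - σ * Da with hη
  have hη2 : η = Da' * (s' - σ') + (s - σ) * Da := by
    rw [hη, ← hs, Matrix.mul_sub, Matrix.sub_mul]
    abel
  have hηe : ∀ a b, ‖η a b‖ ≤ (l + k) * M * ε := by
    intro a b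
    rw [hη2]
    change ‖(∑ c, Da' a c * (s' - σ') c b) + ∑ c, (s - σ) a c * Da c b‖ ≤ _
    refine (norm_add_le _ _).trans ?_
    have e1 : ‖∑ c, Da' a c * (s' - σ') c b‖ ≤ l * (M * ε) := by
      refine (norm_sum_le _ _).trans ?_
      refine (Finset.sum_le_card_nsmul _ _ (M * ε) fun c _ => ?_).trans ?_
      · refine (norm_mul_le _ _).trans ?_
        exact mul_le_mul (hle' a c) (hσ' c b) (norm_nonneg _) hM1.le
      · simp
    have e2 : ‖∑ c, (s - σ) a c * Da c b‖ ≤ k * (M * ε) := by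
      refine (norm_sum_le _ _).trans ?_
      refine (Finset.sum_le_card_nsmul _ _ (M * ε) fun c _ => ?_).trans ?_
      · refine (norm_mul_le _ _).trans ?_
        rw [mul_comm M ε]
        exact mul_le_mul (hσ a c) (hle c b) (norm_nonneg _) hε0.le
      · simp
    calc _ ≤ l * (M * ε) + k * (M * ε) := add_le_add e1 e2
      _ = _ := by ring
  have hηx : ∀ x : Fin m → A, x ᵥ* η = x - (x ᵥ* Da') ᵥ* σ' - (x ᵥ* σ) ᵥ* Da := by
    intro x
    rw [hη, Matrix.vecMul_sub, Matrix.vecMul_sub, Matrix.vecMul_one, Matrix.vecMul_vecMul,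
      Matrix.vecMul_vecMul]
  have hDDa : Da * Da' = 0 := by
    rw [hDa, hDa', ← Matrix.map_mul, hDD]
    ext i j
    simp
  refine ⟨σ, η, {1} ∪ (S1 * Sσ') ∪ (Sσ * S2) ∪ Sσ, ∑ a, ∑ b, ‖σ a b‖, ?_, ?_, ?_, ?_, ?_, ?_⟩
  · exact (((Set.finite_singleton 1).union (hS1.mul hSσ')).union (hSσ.mul hS2)).union hSσ
  · intro x T hx
    exact h1 k _ _ _ (Set.mul_subset_mul_left Set.subset_union_right) (hσT x T hx)
  · intro x T hx a
    rw [hηx x]
    have q1 : Supp fr (x a) (T * ({1} ∪ (S1 * Sσ') ∪ (Sσ * S2) ∪ Sσ)) := by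
      refine supp_mono fr ?_ (hx a)
      intro u hu
      exact ⟨u, hu, 1, Or.inl (Or.inl (Or.inl rfl)), mul_one u⟩
    have q2 : Supp fr (((x ᵥ* Da') ᵥ* σ') a) (T * ({1} ∪ (S1 * Sσ') ∪ (Sσ * S2) ∪ Sσ)) := by
      refine supp_mono fr ?_ (hσT' _ _ (hD' x T hx) a)
      rw [mul_assoc]
      refine Set.mul_subset_mul_left ?_
      exact fun u hu => Or.inl (Or.inl (Or.inr hu))
    have q3 : Supp fr (((x ᵥ* σ) ᵥ* Da) a) (T * ({1} ∪ (S1 * Sσ') ∪ (Sσ * S2) ∪ Sσ)) := by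
      refine supp_mono fr ?_ (hD _ _ (hσT x T hx) a)
      rw [mul_assoc]
      refine Set.mul_subset_mul_left ?_
      exact fun u hu => Or.inl (Or.inr hu)
    exact supp_sub fr (supp_sub fr q1 q2) q3
  · intro x r hx b
    have hr : 0 ≤ r := (norm_nonneg _).trans (hx b)
    refine (norm_vecMul_le x η hx b).trans ?_
    have e1 : ∑ a, ‖η a b‖ ≤ Q * ε := by
      refine (Finset.sum_le_card_nsmul _ _ ((l + k) * M * ε) fun a _ => hηe a b).trans ?_
      rw [hQ]
      simp only [Finset.card_univ, Fintype.card_fin, nsmul_eq_mul]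
      exact le_of_eq (by ring)
    calc r * ∑ a, ‖η a b‖ ≤ r * (1 / 2) := mul_le_mul_of_nonneg_left (e1.trans hQε) hr
      _ = r / 2 := by ring
  · intro x r hx b
    refine (norm_vecMul_le x σ hx b).trans ?_
    rcases Nat.eq_zero_or_pos m with hm | hm
    · subst hm
      simp
    · have hr : 0 ≤ r := (norm_nonneg _).trans (hx ⟨0, hm⟩)
      rw [mul_comm]
      refine mul_le_mul_of_nonneg_right ?_ hr
      exact Finset.sum_le_sum fun a _ =>
        Finset.single_le_sum (f := fun b => ‖σ a b‖) (fun b _ => norm_nonneg _) (Finset.mem_univ b)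
  · intro x hx
    have e : x ᵥ* η = x - (x ᵥ* σ) ᵥ* Da := by
      rw [hηx x, hx, Matrix.zero_vecMul, sub_zero]
    refine ⟨?_, ?_⟩
    · rw [e]; abel
    · rw [e, Matrix.sub_vecMul, hx, Matrix.vecMul_vecMul, hDDa, Matrix.vecMul_zero, sub_zero]

end Pool.Agent.V5helper76.ZM
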